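import Mathlib

/-!
# Halfspaces of the cube are not uniformly bi-Lipschitz transitive

Q1 is answered in the negative: no constant `C` works for all halfspaces of all cubes.
-/

set_option autoImplicit false

namespace Pool.Agent.Results.MP_ca8ef0_co.NotTransitive

/-- The halfspace `{x ∈ {-1,1}^n : a₀ + ∑ aᵢ xᵢ ≥ 0}`; `ℤˣ = {1, -1}`. -/
def Halfspace {n : ℕ} (a0 : ℝ) (a : Fin n → ℝ) : Set (Fin n → ℤˣ) :=
  {x | 0 ≤ a0 + ∑ i, a i * ((x i : ℤ) : ℝ)}

/-- `C`-bi-Lipschitz transitivity with respect to the Hamming distance. -/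
def BiLipschitzTransitive {n : ℕ} (C : ℝ) (A : Set (Fin n → ℤˣ)) : Prop :=
  ∀ x y : A, ∃ f : A ≃ A, f x = y ∧ f y = x ∧ ∀ z w : A, z ≠ w →
    1 / C ≤ (hammingDist (f z).1 (f w).1 : ℝ) / (hammingDist z.1 w.1 : ℝ) ∧
      (hammingDist (f z).1 (f w).1 : ℝ) / (hammingDist z.1 w.1 : ℝ) ≤ C

/-- the weights: `1` on the first `W` coordinates, `W` on the other `M` coordinates -/
noncomputable def wt (W M : ℕ) : Fin (W + M) → ℝ :=
  Fin.append (fun _ : Fin W => (1 : ℝ)) (fun _ : Fin M => (W : ℝ))

/-- the constant term -/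
noncomputable def cst (W M : ℕ) : ℝ := 2 * W - ∑ i, wt W M i

lemma units_cases (u : ℤˣ) : ((u : ℤ) : ℝ) = 1 ∨ ((u : ℤ) : ℝ) = -1 := by
  rcases Int.units_eq_one_or u with h | h <;> simp [h]

lemma mem_iff (W M : ℕ) (x : Fin (W + M) → ℤˣ) :
    x ∈ Halfspace (cst W M) (wt W M) ↔
      ∑ i : Fin W, (1 - ((x (Fin.castAdd M i) : ℤ) : ℝ)) +
        W * ∑ j : Fin M, (1 - ((x (Fin.natAdd W j) : ℤ) : ℝ)) ≤ 2 * W := by
  unfold Halfspace cst wt
  rw [Set.mem_ofPred_eq, Fin.sum_univ_add, Fin.sum_univ_add]
  simp only [Fin.append_left, Fin.append_right, one_mul, Finset.sum_sub_distrib, mul_sub,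
    Finset.mul_sum]
  simp only [mul_one, Finset.sum_const, Finset.card_univ, Fintype.card_fin, nsmul_eq_mul]
  constructor
  · intro h; linarith
  · intro h; linarith

lemma nonneg_term (u : ℤˣ) : (0 : ℝ) ≤ 1 - ((u : ℤ) : ℝ) := by
  rcases units_cases u with h | h <;> rw [h] <;> norm_num

/-- a point of the halfspace with a `-1` among the heavy coordinates has no light `-1` -/
lemma light_one {W M : ℕ} (hW : 1 ≤ W) {x : Fin (W + M) → ℤˣ}
    (hx : x ∈ Halfspace (cst W M) (wt W M)) {j : Fin M} (hj : x (Fin.natAdd W j) = -1)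
    (i : Fin W) : x (Fin.castAdd M i) = 1 := by
  rw [mem_iff] at hx
  by_contra hne
  have hi : x (Fin.castAdd M i) = -1 := (Int.units_eq_one_or _).resolve_left hne
  have h1 : (2 : ℝ) ≤ ∑ i : Fin W, (1 - ((x (Fin.castAdd M i) : ℤ) : ℝ)) := by
    calc (2 : ℝ) = 1 - ((x (Fin.castAdd M i) : ℤ) : ℝ) := by rw [hi]; norm_num
      _ ≤ _ := Finset.single_le_sum (f := fun i : Fin W => 1 - ((x (Fin.castAdd M i) : ℤ) : ℝ))
        (fun i _ => nonneg_term _) (Finset.mem_univ i)
  have h2 : (2 : ℝ) ≤ ∑ j : Fin M, (1 - ((x (Fin.natAdd W j) : ℤ) : ℝ)) := by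
    calc (2 : ℝ) = 1 - ((x (Fin.natAdd W j) : ℤ) : ℝ) := by rw [hj]; norm_num
      _ ≤ _ := Finset.single_le_sum (f := fun j : Fin M => 1 - ((x (Fin.natAdd W j) : ℤ) : ℝ))
        (fun i _ => nonneg_term _) (Finset.mem_univ j)
  have h3 : (1 : ℝ) ≤ W := by exact_mod_cast hW
  nlinarith

/-- the top point -/
def top (W M : ℕ) : Fin (W + M) → ℤˣ := fun _ => 1

/-- the point with `-1` exactly at the light coordinates -/
def low (W M : ℕ) : Fin (W + M) → ℤˣ := Fin.append (fun _ : Fin W => -1) (fun _ : Fin M => 1)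

/-- the point with `-1` exactly at the heavy coordinate `j` -/
def nb (W M : ℕ) (j : Fin M) : Fin (W + M) → ℤˣ :=
  Fin.append (fun _ : Fin W => 1) (fun k : Fin M => if k = j then -1 else 1)

lemma top_mem (W M : ℕ) : top W M ∈ Halfspace (cst W M) (wt W M) := by
  rw [mem_iff]
  simp [top]

lemma low_mem (W M : ℕ) : low W M ∈ Halfspace (cst W M) (wt W M) := by
  rw [mem_iff]
  simp only [low, Fin.append_left, Fin.append_right, Units.val_neg, Units.val_one, Int.cast_neg,
    Int.cast_one, sub_self, Finset.sum_const_zero, mul_zero, add_zero, Finset.sum_const,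
    Finset.card_univ, Fintype.card_fin, nsmul_eq_mul]
  linarith

lemma nb_mem (W M : ℕ) (j : Fin M) : nb W M j ∈ Halfspace (cst W M) (wt W M) := by
  rw [mem_iff]
  have h : ∑ k : Fin M, (1 - (((nb W M j) (Fin.natAdd W k) : ℤ) : ℝ)) = 2 := by
    rw [Finset.sum_eq_single j]
    · simp only [nb, Fin.append_right, if_true, Units.val_neg, Units.val_one, Int.cast_neg,
        Int.cast_one]
      norm_num
    · intro k _ hk
      simp [nb, hk]
    · intro h; exact absurd (Finset.mem_univ j) h
  rw [h]
  simp only [nb, Fin.append_left, Units.val_one, Int.cast_one, sub_self, Finset.sum_const_zero,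
    zero_add]
  linarith

lemma dist_top_nb (W M : ℕ) (j : Fin M) : hammingDist (nb W M j) (top W M) = 1 := by
  unfold hammingDist
  rw [Finset.card_eq_one]
  refine ⟨Fin.natAdd W j, ?_⟩
  ext i
  simp only [Finset.mem_filter, Finset.mem_univ, true_and, Finset.mem_singleton]
  refine Fin.addCases (fun i => ?_) (fun k => ?_) i
  · simp only [nb, top, Fin.append_left, ne_eq, not_true_eq_false, false_iff]
    intro h
    have := congrArg Fin.val h
    simp at this
    omega
  · simp only [nb, top, Fin.append_right]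
    constructor
    · intro h
      by_cases hk : k = j
      · rw [hk]
      · rw [if_neg hk] at h
        exact absurd rfl h
    · intro h
      have hk : k = j := by
        have := congrArg Fin.val h
        simp at this
        exact Fin.ext this
      rw [if_pos hk]
      decide

lemma dist_low {W M : ℕ} {x : Fin (W + M) → ℤˣ} {j : Fin M}
    (hj : x (Fin.natAdd W j) = -1) (hl : ∀ i : Fin W, x (Fin.castAdd M i) = 1) :
    W + 1 ≤ hammingDist x (low W M) := by
  unfold hammingDist
  have h1 : Finset.univ.map (Fin.castAddEmb M : Fin W ↪ Fin (W + M)) ∪ {Fin.natAdd W j} ⊆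
      Finset.univ.filter (fun i => x i ≠ low W M i) := by
    intro i hi
    simp only [Finset.mem_union, Finset.mem_map, Finset.mem_univ, true_and,
      Finset.mem_singleton] at hi
    simp only [Finset.mem_filter, Finset.mem_univ, true_and]
    rcases hi with ⟨k, rfl⟩ | rfl
    · change x (Fin.castAdd M k) ≠ low W M (Fin.castAdd M k)
      rw [hl k]
      simp only [low, Fin.append_left]
      decide
    · rw [hj]
      simp only [low, Fin.append_right]
      decide
  refine le_trans ?_ (Finset.card_le_card h1)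
  rw [Finset.card_union_of_disjoint]
  · simp
  · rw [Finset.disjoint_singleton_right]
    intro h
    simp only [Finset.mem_map, Finset.mem_univ, true_and] at h
    obtain ⟨k, hk⟩ := h
    have := congrArg Fin.val hk
    simp at this
    have := k.2
    omega

theorem not_transitive (C : ℝ) (W M : ℕ) (hW : 1 ≤ W) (hC : C < W + 1) (hM : 2 ^ W < M) :
    ¬ BiLipschitzTransitive C (Halfspace (cst W M) (wt W M)) := by
  intro H
  obtain ⟨f, hf, -, hd⟩ := H ⟨top W _, top_mem W _⟩ ⟨low W _, low_mem W _⟩
  set z : Fin M → Halfspace (cst W M) (wt W M) := fun j => ⟨nb W M j, nb_mem W M j⟩ with hz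
  have hzinj : Function.Injective z := by
    intro j k hjk
    have h1 : nb W M j = nb W M k := congrArg Subtype.val hjk
    have h2 := congrFun h1 (Fin.natAdd W j)
    simp only [nb, Fin.append_right, if_true] at h2
    by_contra hne
    rw [if_neg hne] at h2
    exact absurd h2 (by decide)
  have hone : ∀ (j : Fin M) (k : Fin M), (f (z j)).1 (Fin.natAdd W k) = 1 := by
    intro j k
    by_contra hne
    have hk : (f (z j)).1 (Fin.natAdd W k) = -1 := (Int.units_eq_one_or _).resolve_left hne
    have hl := light_one hW (f (z j)).2 hk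
    have h1 := dist_low hk hl
    have hne' : z j ≠ ⟨top W M, top_mem W M⟩ := by
      intro h
      have h2 := congrFun (congrArg Subtype.val h) (Fin.natAdd W j)
      simp only [hz, nb, top, Fin.append_right, if_true] at h2
      exact absurd h2 (by decide)
    have h2 := (hd (z j) ⟨top W M, top_mem W M⟩ hne').2
    rw [hf] at h2
    have h3 : hammingDist (z j).1 (top W M) = 1 := dist_top_nb W M j
    simp only [h3, Nat.cast_one, div_one] at h2
    have h4 : ((W + 1 : ℕ) : ℝ) ≤ (hammingDist (f (z j)).1 (low W M) : ℝ) := by exact_mod_cast h1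
    push_cast at h4
    linarith
  obtain ⟨j, k, hjk, hg⟩ := Fintype.exists_ne_map_eq_of_card_lt
    (fun (j : Fin M) (i : Fin W) => (f (z j)).1 (Fin.castAdd M i)) (by
      rw [Fintype.card_fun, Fintype.card_fin, Fintype.card_fin]
      have : Fintype.card ℤˣ = 2 := by decide
      rw [this]
      exact hM)
  apply hjk
  apply hzinj
  apply f.injective
  apply Subtype.ext
  funext i
  refine Fin.addCases (fun i => ?_) (fun l => ?_) i
  · exact congrFun hg i
  · rw [hone, hone]

/-- No constant `C` makes all halfspaces `C`-bi-Lipschitz transitive. -/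
theorem result : ¬ ∃ C : ℝ, ∀ (n : ℕ) (a0 : ℝ) (a : Fin n → ℝ),
    BiLipschitzTransitive C (Halfspace a0 a) := by
  rintro ⟨C, hC⟩
  obtain ⟨W, hW⟩ := exists_nat_gt (max C 1)
  have h1 : (1 : ℝ) < W := lt_of_le_of_lt (le_max_right _ _) hW
  have h2 : C < W := lt_of_le_of_lt (le_max_left _ _) hW
  exact not_transitive C W (2 ^ W + 1) (by exact_mod_cast h1.le) (by linarith)
    (Nat.lt_succ_self _) (hC _ _ _)

end Pool.Agent.Results.MP_ca8ef0_co.NotTransitive
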